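import Mathlib

/-!
# Integrality of `a_n` at the primes which divide `2^10 21^4`
-/

set_option autoImplicit false

open Finset
open scoped Nat

namespace Pool.Agent.Results.MP_7e705e_nt.LocalIntegrality

noncomputable section

/-- The multinomial coefficient `(4k)! / (k!)^4`. -/
def M (k : ℕ) : ℚ := ((4 * k)! : ℚ) / (k ! : ℚ) ^ 4

/-- `T_n = ∑_{k < n} c^(n-1-k) (21460 k + 1123) (4k)! / (k!)^4`, `c = -2^10 21^4`. -/
def T (n : ℕ) : ℚ :=
  ∑ k ∈ range n, (-(2 ^ 10 * 21 ^ 4) : ℚ) ^ (n - 1 - k) * (21460 * k + 1123) * M k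

/-- `a_n = T_n / (2 n (2n+1) binom(2n,n))`. -/
def a (n : ℕ) : ℚ := T n / (2 * n * (2 * n + 1) * (Nat.choose (2 * n) n : ℚ))

/-! ### Floors -/

theorem divF (q k j : ℕ) (hq : 2 ≤ q) : 4 * (k / q) + (2 * (k + j) + 3) / q ≤
    (4 * k) / q + (k + j) / q + (k + j + 1) / q + 1 := by
  have hq0 : 0 < q := by omega
  have h1 : 4 * (k / q) ≤ (4 * k) / q := by
    rw [Nat.le_div_iff_mul_le hq0]
    have := Nat.div_mul_le_self k q
    nlinarith
  have h2 : (2 * (k + j) + 3) / q ≤ (k + j) / q + (k + j + 1) / q + 1 := by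
    generalize k + j = m
    have hm := Nat.div_add_mod m q
    have hr := Nat.mod_lt m hq0
    generalize m / q = b at *
    generalize m % q = t at *
    subst hm
    rw [show 2 * (q * b + t) + 3 = q * (2 * b) + (2 * t + 3) by ring,
      show q * b + t + 1 = q * b + (t + 1) by ring, Nat.mul_add_div hq0, Nat.mul_add_div hq0]
    have h3 : (2 * t + 3) / q ≤ (t + 1) / q + 1 := by
      by_cases h : t + 1 = q
      · rw [h, Nat.div_self hq0]
        have : (2 * t + 3) / q < 3 := by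
          rw [Nat.div_lt_iff_lt_mul hq0]
          omega
        omega
      · have : (2 * t + 3) / q < 2 := by
          rw [Nat.div_lt_iff_lt_mul hq0]
          omega
        generalize (t + 1) / q = x1 at *
        generalize (2 * t + 3) / q = x2 at *
        omega
    omega
  omega

theorem divG (q k j : ℕ) (hq : 4 * j + 6 ≤ q) : 4 * (k / q) + (2 * (k + j) + 3) / q ≤
    (4 * k) / q + (k + j) / q + (k + j + 1) / q := by
  have hq0 : 0 < q := by omega
  have hk := Nat.div_add_mod k q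
  have hr := Nat.mod_lt k hq0
  generalize k / q = b at *
  generalize k % q = r at *
  subst hk
  rw [show 2 * (q * b + r + j) + 3 = q * (2 * b) + (2 * r + 2 * j + 3) by ring,
    show 4 * (q * b + r) = q * (4 * b) + 4 * r by ring,
    show q * b + r + j = q * b + (r + j) by ring,
    show q * b + (r + j) + 1 = q * b + (r + j + 1) by ring, Nat.mul_add_div hq0,
    Nat.mul_add_div hq0, Nat.mul_add_div hq0, Nat.mul_add_div hq0]
  have h3 : (2 * r + 2 * j + 3) / q < 3 := by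
    rw [Nat.div_lt_iff_lt_mul hq0]
    omega
  by_cases h1 : 2 * r + 2 * j + 3 < q
  · rw [Nat.div_eq_of_lt h1]
    generalize (4 * r) / q = x1
    generalize (r + j) / q = x2
    generalize (r + j + 1) / q = x3
    omega
  have h4 : 1 ≤ (4 * r) / q := by
    rw [Nat.le_div_iff_mul_le hq0]
    omega
  by_cases h2 : 2 * r + 2 * j + 3 < 2 * q
  · have : (2 * r + 2 * j + 3) / q < 2 := by
      rw [Nat.div_lt_iff_lt_mul hq0]
      omega
    generalize (2 * r + 2 * j + 3) / q = x4 at *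
    generalize (4 * r) / q = x1 at *
    generalize (r + j) / q = x2 at *
    generalize (r + j + 1) / q = x3 at *
    omega
  · have : 1 ≤ (r + j + 1) / q := by
      rw [Nat.le_div_iff_mul_le hq0]
      omega
    generalize (2 * r + 2 * j + 3) / q = x4 at *
    generalize (4 * r) / q = x1 at *
    generalize (r + j) / q = x2 at *
    generalize (r + j + 1) / q = x3 at *
    omega

/-! ### Valuations of factorials -/

theorem vfac (p : ℕ) [hp : Fact p.Prime] (b x : ℕ) (hx : x < b) :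
    padicValNat p (x !) = ∑ i ∈ Ico 1 b, x / p ^ i := by
  refine padicValNat_factorial ?_
  rcases Nat.eq_zero_or_pos x with rfl | h0
  · simp
    omega
  · refine Nat.log_lt_of_lt_pow h0.ne' ?_
    exact hx.trans (Nat.lt_pow_self hp.out.one_lt)

theorem pow_big (j : ℕ) (hj : 1 ≤ j) : 4 * j + 6 ≤ 2 ^ (3 * j + 1) := by
  induction j, hj using Nat.le_induction with
  | base => norm_num
  | succ j hj ih =>
    have : 2 ^ (3 * (j + 1) + 1) = 8 * 2 ^ (3 * j + 1) := by ring
    omega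

theorem val_le (p : ℕ) [hp : Fact p.Prime] (k j : ℕ) (hj : 1 ≤ j) :
    4 * padicValNat p (k !) + padicValNat p ((2 * (k + j) + 3)!) ≤
      padicValNat p ((4 * k)!) + padicValNat p ((k + j)!) + padicValNat p ((k + j + 1)!) +
        3 * j := by
  set b := 4 * (k + j) + 4 with hb
  rw [vfac p b k (by omega), vfac p b (2 * (k + j) + 3) (by omega),
    vfac p b (4 * k) (by omega), vfac p b (k + j) (by omega),
    vfac p b (k + j + 1) (by omega)]
  have h1 : ∑ i ∈ Ico 1 b, (if p ^ i < 4 * j + 6 then 1 else 0) ≤ 3 * j := by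
    rw [← card_filter]
    have : (Ico 1 b).filter (fun i => p ^ i < 4 * j + 6) ⊆ Icc 1 (3 * j) := by
      intro i hi
      rw [mem_filter, mem_Ico] at hi
      rw [mem_Icc]
      refine ⟨hi.1.1, ?_⟩
      by_contra hc
      have h2 : 2 ^ (3 * j + 1) ≤ 2 ^ i := Nat.pow_le_pow_right (by norm_num) (by omega)
      have h3 : 2 ^ i ≤ p ^ i := Nat.pow_le_pow_left hp.out.two_le i
      have h4 := pow_big j hj
      omega
    calc _ ≤ (Icc 1 (3 * j)).card := card_le_card this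
      _ = 3 * j := by simp
  have h2 : ∑ i ∈ Ico 1 b, (4 * (k / p ^ i) + (2 * (k + j) + 3) / p ^ i) ≤
      ∑ i ∈ Ico 1 b, ((4 * k) / p ^ i + (k + j) / p ^ i + (k + j + 1) / p ^ i +
        (if p ^ i < 4 * j + 6 then 1 else 0)) := by
    refine sum_le_sum fun i hi => ?_
    rw [mem_Ico] at hi
    split_ifs with h
    · refine divF _ _ _ ?_
      calc 2 ≤ p := hp.out.two_le
        _ = p ^ 1 := (pow_one p).symm
        _ ≤ p ^ i := Nat.pow_le_pow_right hp.out.pos hi.1
    · exact divG _ _ _ (by omega)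
  simp only [sum_add_distrib, ← mul_sum] at h2
  omega

theorem val_le_zero (p : ℕ) [hp : Fact p.Prime] (hp7 : 7 ≤ p) (m : ℕ) :
    4 * padicValNat p (m !) + padicValNat p ((2 * m + 3)!) ≤
      padicValNat p ((4 * m)!) + padicValNat p (m !) + padicValNat p ((m + 1)!) := by
  set b := 4 * m + 4 with hb
  rw [vfac p b m (by omega), vfac p b (2 * m + 3) (by omega),
    vfac p b (4 * m) (by omega), vfac p b (m + 1) (by omega)]
  have h2 : ∑ i ∈ Ico 1 b, (4 * (m / p ^ i) + (2 * m + 3) / p ^ i) ≤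
      ∑ i ∈ Ico 1 b, ((4 * m) / p ^ i + m / p ^ i + (m + 1) / p ^ i) := by
    refine sum_le_sum fun i hi => ?_
    rw [mem_Ico] at hi
    refine divG _ _ 0 ?_
    calc 4 * 0 + 6 ≤ p := by omega
      _ = p ^ 1 := (pow_one p).symm
      _ ≤ p ^ i := Nat.pow_le_pow_right hp.out.pos hi.1
  simp only [sum_add_distrib, ← mul_sum] at h2
  omega

/-! ### The terms -/

/-- The term of `a_(m+1)`. -/
def term (m k : ℕ) : ℚ := (-(2 ^ 10 * 21 ^ 4) : ℚ) ^ (m - k) * (21460 * k + 1123) * M k *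
  ((m ! : ℚ) * ((m + 1)! : ℚ)) / (2 * ((2 * m + 3)! : ℚ))

theorem den_eq (m : ℕ) : (2 * ((m + 1 : ℕ) : ℚ) * (2 * ((m + 1 : ℕ) : ℚ) + 1) *
    (Nat.choose (2 * (m + 1)) (m + 1) : ℚ)) * ((m ! : ℚ) * ((m + 1)! : ℚ)) =
    2 * ((2 * m + 3)! : ℚ) := by
  have h : (2 * (m + 1)).choose (m + 1) * (m + 1)! * (m + 1)! = (2 * (m + 1))! := by
    have := Nat.choose_mul_factorial_mul_factorial (n := 2 * (m + 1)) (k := m + 1) (by omega)
    rwa [show 2 * (m + 1) - (m + 1) = m + 1 by omega] at this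
  have h' : ((2 * m + 3)! : ℚ) = (2 * m + 3) * ((2 * (m + 1)).choose (m + 1) * (m + 1)! *
      (m + 1)! : ℕ) := by
    rw [h, show 2 * m + 3 = 2 * (m + 1) + 1 by ring, Nat.factorial_succ]
    push_cast
    ring
  rw [h']
  have h3 : ((m + 1)! : ℚ) = (m + 1) * (m ! : ℚ) := by
    rw [Nat.factorial_succ]
    push_cast
    ring
  push_cast
  rw [h3]
  ring

theorem a_eq (m : ℕ) : a (m + 1) = ∑ k ∈ range (m + 1), term m k := by
  unfold a T
  rw [sum_div]
  refine sum_congr rfl fun k _ => ?_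
  unfold term
  have hd := den_eq m
  have h1 : ((2 * m + 3)! : ℚ) ≠ 0 := by exact_mod_cast (Nat.factorial_pos _).ne'
  have h2 : (m ! : ℚ) * ((m + 1)! : ℚ) ≠ 0 :=
    mul_ne_zero (by exact_mod_cast (Nat.factorial_pos _).ne')
      (by exact_mod_cast (Nat.factorial_pos _).ne')
  have h3 : (2 * ((m + 1 : ℕ) : ℚ) * (2 * ((m + 1 : ℕ) : ℚ) + 1) *
    (Nat.choose (2 * (m + 1)) (m + 1) : ℚ)) ≠ 0 := by
    intro h0
    rw [h0, zero_mul] at hd
    exact (mul_ne_zero two_ne_zero h1) hd.symm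
  rw [← hd, show m + 1 - 1 - k = m - k by omega]
  rw [div_eq_div_iff h3 (mul_ne_zero h3 h2)]
  ring

theorem val_term (p : ℕ) [hp : Fact p.Prime] (m k : ℕ) : padicValRat p (term m k) =
    (m - k : ℕ) * (padicValNat p (2 ^ 10 * 21 ^ 4) : ℤ) + padicValNat p (21460 * k + 1123) +
      (padicValNat p ((4 * k)!) - 4 * padicValNat p (k !)) +
      (padicValNat p (m !) + padicValNat p ((m + 1)!)) -
      (padicValNat p 2 + padicValNat p ((2 * m + 3)!)) := by
  have f : ∀ n : ℕ, (n ! : ℚ) ≠ 0 := fun n => by exact_mod_cast (Nat.factorial_pos _).ne'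
  have hc : (-(2 ^ 10 * 21 ^ 4) : ℚ) ≠ 0 := by norm_num
  have hl : (21460 * k + 1123 : ℚ) ≠ 0 := by positivity
  have hM : M k ≠ 0 := div_ne_zero (f _) (pow_ne_zero _ (f _))
  have e1 : padicValRat p (-(2 ^ 10 * 21 ^ 4) : ℚ) = padicValNat p (2 ^ 10 * 21 ^ 4) := by
    rw [padicValRat.neg, ← padicValRat.of_nat]
    norm_num
  have e2 : padicValRat p (21460 * k + 1123 : ℚ) = padicValNat p (21460 * k + 1123) := by
    rw [← padicValRat.of_nat]
    push_cast
    rfl
  have e3 : padicValRat p (2 : ℚ) = padicValNat p 2 := by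
    rw [← padicValRat.of_nat]
    push_cast
    rfl
  unfold term
  rw [padicValRat.div (mul_ne_zero (mul_ne_zero (mul_ne_zero (pow_ne_zero _ hc) hl) hM)
      (mul_ne_zero (f _) (f _))) (mul_ne_zero two_ne_zero (f _)),
    padicValRat.mul (mul_ne_zero (mul_ne_zero (pow_ne_zero _ hc) hl) hM)
      (mul_ne_zero (f _) (f _)), padicValRat.mul (mul_ne_zero (pow_ne_zero _ hc) hl) hM,
    padicValRat.mul (pow_ne_zero _ hc) hl, padicValRat.mul (f _) (f _),
    padicValRat.mul two_ne_zero (f _), padicValRat.pow, e1, e2, e3]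
  unfold M
  rw [padicValRat.div (f _) (pow_ne_zero _ (f _)), padicValRat.pow]
  simp only [padicValRat.of_nat]
  push_cast
  ring

/-! ### `p = 3`, the last term -/

theorem floor_gain (m : ℕ) (hm : 1 ≤ m) (h3 : 3 ∣ m) (hn : ∀ e : ℕ, 2 * m + 3 ≠ 3 ^ e) :
    ∃ i, 2 ≤ i ∧ i < 4 * m + 4 ∧ 4 * (m / 3 ^ i) + (2 * m + 3) / 3 ^ i + 1 ≤
      (4 * m) / 3 ^ i + m / 3 ^ i + (m + 1) / 3 ^ i := by
  obtain ⟨e, Q, hQ3, hQ⟩ := Nat.exists_eq_pow_mul_and_not_dvd (n := 2 * m + 3) (by omega) 3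
    (by norm_num)
  have he : 1 ≤ e := by
    by_contra hc
    have : e = 0 := by omega
    subst this
    rw [pow_zero, one_mul] at hQ
    omega
  have hQ1 : Q ≠ 1 := by
    rintro rfl
    rw [mul_one] at hQ
    exact hn e hQ
  have hQodd : Q % 2 = 1 := by
    have h1 : (3 ^ e * Q) % 2 = 1 := by omega
    rcases Nat.mod_two_eq_zero_or_one Q with h | h
    · rw [Nat.mul_mod, h] at h1
      simp at h1
    · exact h
  have hXodd : (3 ^ e) % 2 = 1 := by
    rw [Nat.pow_mod]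
    norm_num
  obtain ⟨Q', rfl⟩ : ∃ Q', Q = 2 * Q' + 1 := ⟨Q / 2, by omega⟩
  obtain ⟨v, R, hR3, rfl⟩ := Nat.exists_eq_pow_mul_and_not_dvd (n := Q') (by omega) 3
    (by norm_num)
  have hX : 3 ≤ 3 ^ e := by
    calc 3 = 3 ^ 1 := by norm_num
      _ ≤ 3 ^ e := Nat.pow_le_pow_right (by norm_num) he
  have hY : 1 ≤ 3 ^ v := Nat.one_le_pow _ _ (by norm_num)
  have hvd : v = 0 → R % 3 ≠ 1 := by
    rintro rfl h
    rw [pow_zero, one_mul] at hQ3
    omega
  have hY3 : v ≠ 0 → 3 ≤ 3 ^ v := fun hv => by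
    calc 3 = 3 ^ 1 := by norm_num
      _ ≤ 3 ^ v := Nat.pow_le_pow_right (by norm_num) (by omega)
  have hi : 3 ^ (e + v + 1) = 3 * (3 ^ e * 3 ^ v) := by ring
  have hP : 3 ^ e ≤ 3 ^ e * 3 ^ v := Nat.le_mul_of_pos_right _ (by omega)
  have hP3 : v ≠ 0 → 3 * 3 ^ e ≤ 3 ^ e * 3 ^ v := fun hv => by nlinarith [hY3 hv]
  have hR := Nat.div_add_mod R 3
  have hRm : R % 3 = 1 ∨ R % 3 = 2 := by omega
  generalize R / 3 = R' at *
  have hmain : 2 * m + 3 = 6 * (3 ^ e * 3 ^ v * R') + 2 * (3 ^ e * 3 ^ v) * (R % 3) + 3 ^ e := by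
    rw [hQ]
    nth_rewrite 1 [← hR]
    ring
  have hR1 : 1 ≤ R := by omega
  have hPm : 2 * (3 ^ e * 3 ^ v) + 3 ≤ 2 * m + 3 := by
    rw [hQ]
    have : 3 ^ e * 3 ^ v ≤ 3 ^ e * 3 ^ v * R := Nat.le_mul_of_pos_right _ (by omega)
    nlinarith
  refine ⟨e + v + 1, by omega, ?_, ?_⟩
  · have h1 : e + v + 1 < 3 ^ (e + v + 1) := Nat.lt_pow_self (by norm_num)
    omega
  rw [hi]
  generalize 3 ^ e * 3 ^ v = P at *
  generalize 3 ^ e = X at *
  set q := 3 * P with hq
  have hq0 : 0 < q := by omega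
  obtain ⟨r, hr⟩ : ∃ r, m = q * R' + r := ⟨m - q * R', by
    have : q * R' ≤ m := by
      have : q * R' = 3 * (P * R') := by rw [hq]; ring
      rcases hRm with h | h <;> rw [h] at hmain <;> omega
    omega⟩
  have hr2 : 2 * r + 3 = 2 * P * (R % 3) + X := by
    have h1 : q * R' = 3 * (P * R') := by rw [hq]; ring
    rw [h1] at hr
    rcases hRm with h | h <;> rw [h] at hmain ⊢ <;> omega
  have hrq : r < q := by rcases hRm with h | h <;> rw [h] at hr2 <;> omega
  rw [hr, show 2 * (q * R' + r) + 3 = q * (2 * R') + (2 * r + 3) by ring,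
    show 4 * (q * R' + r) = q * (4 * R') + 4 * r by ring,
    show q * R' + r + 1 = q * R' + (r + 1) by ring, Nat.mul_add_div hq0,
    Nat.mul_add_div hq0, Nat.mul_add_div hq0, Nat.mul_add_div hq0, Nat.div_eq_of_lt hrq]
  have key : (2 * r + 3) / q + 1 ≤ (4 * r) / q := by
    rcases hRm with h | h
    · have hv : v ≠ 0 := fun hv => hvd hv h
      have := hP3 hv
      rw [h] at hr2
      rw [Nat.div_eq_of_lt (show 2 * r + 3 < q by omega)]
      rw [Nat.le_div_iff_mul_le hq0]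
      omega
    · rw [h] at hr2
      have h1 : (2 * r + 3) / q < 2 := by
        rw [Nat.div_lt_iff_lt_mul hq0]
        omega
      have h2 : 2 ≤ (4 * r) / q := by
        rw [Nat.le_div_iff_mul_le hq0]
        omega
      omega
  generalize (2 * r + 3) / q = x1 at *
  generalize (4 * r) / q = x2 at *
  generalize (r + 1) / q = x3 at *
  omega

theorem floor_eq (m e i : ℕ) (hm : 2 * m + 3 = 3 ^ e) (hi : 2 ≤ i) :
    (4 * m) / 3 ^ i + m / 3 ^ i + (m + 1) / 3 ^ i ≤ 4 * (m / 3 ^ i) + (2 * m + 3) / 3 ^ i := by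
  have h9 : 9 ≤ 3 ^ i := by
    calc 9 = 3 ^ 2 := by norm_num
      _ ≤ 3 ^ i := Nat.pow_le_pow_right (by norm_num) hi
  have hodd : ∀ n : ℕ, (3 ^ n) % 2 = 1 := fun n => by
    rw [Nat.pow_mod]
    norm_num
  rcases Nat.lt_or_ge e i with h | h
  · have h1 : 3 * 3 ^ e ≤ 3 ^ i := by
      calc 3 * 3 ^ e = 3 ^ (e + 1) := by ring
        _ ≤ 3 ^ i := Nat.pow_le_pow_right (by norm_num) h
    rw [Nat.div_eq_of_lt (show 4 * m < 3 ^ i by omega), Nat.div_eq_of_lt (show m < 3 ^ i by omega),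
      Nat.div_eq_of_lt (show m + 1 < 3 ^ i by omega)]
    exact Nat.zero_le _
  · obtain ⟨d, rfl⟩ : ∃ d, e = i + d := ⟨e - i, by omega⟩
    rw [pow_add] at hm
    obtain ⟨z, hz⟩ : ∃ z, 3 ^ d = 2 * z + 1 := ⟨3 ^ d / 2, by have := hodd d; omega⟩
    have hq := hodd i
    rw [hz] at hm
    generalize 3 ^ i = q at *
    have hq0 : 0 < q := by omega
    obtain ⟨r, hr⟩ : ∃ r, q = 2 * r + 3 := ⟨(q - 3) / 2, by omega⟩
    have hmr : m = q * z + r := by
      have : q * (2 * z + 1) = 2 * (q * z) + q := by ring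
      rw [this] at hm
      omega
    rw [hmr, show 2 * (q * z + r) + 3 = q * (2 * z) + (2 * r + 3) by ring,
      show 4 * (q * z + r) = q * (4 * z) + 4 * r by ring,
      show q * z + r + 1 = q * z + (r + 1) by ring, Nat.mul_add_div hq0,
      Nat.mul_add_div hq0, Nat.mul_add_div hq0, Nat.mul_add_div hq0,
      Nat.div_eq_of_lt (show r < q by omega), Nat.div_eq_of_lt (show r + 1 < q by omega),
      ← hr, Nat.div_self hq0]
    have : (4 * r) / q < 2 := by
      rw [Nat.div_lt_iff_lt_mul hq0]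
      omega
    generalize (4 * r) / q = x2 at *
    omega

theorem val3_a (m : ℕ) (h3 : ¬ 3 ∣ m) :
    4 * padicValNat 3 (m !) + padicValNat 3 ((2 * m + 3)!) ≤
      padicValNat 3 ((4 * m)!) + padicValNat 3 (m !) + padicValNat 3 ((m + 1)!) := by
  set b := 4 * m + 4 with hb
  rw [vfac 3 b m (by omega), vfac 3 b (2 * m + 3) (by omega),
    vfac 3 b (4 * m) (by omega), vfac 3 b (m + 1) (by omega)]
  have h2 : ∑ i ∈ Ico 1 b, (4 * (m / 3 ^ i) + (2 * m + 3) / 3 ^ i) ≤
      ∑ i ∈ Ico 1 b, ((4 * m) / 3 ^ i + m / 3 ^ i + (m + 1) / 3 ^ i) := by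
    refine sum_le_sum fun i hi => ?_
    rw [mem_Ico] at hi
    rcases Nat.lt_or_ge i 2 with h | h
    · obtain rfl : i = 1 := by omega
      rw [pow_one]
      obtain ⟨d, hd⟩ : ∃ d, m = 3 * d + 1 ∨ m = 3 * d + 2 := ⟨m / 3, by omega⟩
      clear hb
      rcases hd with hd | hd <;> subst hd <;> omega
    · refine divG _ _ 0 ?_
      calc 4 * 0 + 6 ≤ 3 ^ 2 := by norm_num
        _ ≤ 3 ^ i := Nat.pow_le_pow_right (by norm_num) h
  simp only [sum_add_distrib, ← mul_sum] at h2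
  omega

theorem val3_b (m : ℕ) (hm : 1 ≤ m) (h3 : 3 ∣ m) (hn : ∀ e : ℕ, 2 * m + 3 ≠ 3 ^ e) :
    4 * padicValNat 3 (m !) + padicValNat 3 ((2 * m + 3)!) ≤
      padicValNat 3 ((4 * m)!) + padicValNat 3 (m !) + padicValNat 3 ((m + 1)!) := by
  obtain ⟨i0, h02, h0b, h0⟩ := floor_gain m hm h3 hn
  set b := 4 * m + 4 with hb
  rw [vfac 3 b m (by omega), vfac 3 b (2 * m + 3) (by omega),
    vfac 3 b (4 * m) (by omega), vfac 3 b (m + 1) (by omega)]
  have h2 : ∑ i ∈ Ico 1 b, (4 * (m / 3 ^ i) + (2 * m + 3) / 3 ^ i + if i = i0 then 1 else 0) ≤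
      ∑ i ∈ Ico 1 b, ((4 * m) / 3 ^ i + m / 3 ^ i + (m + 1) / 3 ^ i +
        if i = 1 then 1 else 0) := by
    refine sum_le_sum fun i hi => ?_
    rw [mem_Ico] at hi
    rcases Nat.lt_or_ge i 2 with h | h
    · obtain rfl : i = 1 := by omega
      rw [pow_one, if_neg (by omega), if_pos rfl]
      omega
    · rw [if_neg (show i ≠ 1 by omega), add_zero]
      split_ifs with hi0
      · rw [hi0]
        exact h0
      · refine divG _ _ 0 ?_
        calc 4 * 0 + 6 ≤ 3 ^ 2 := by norm_num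
          _ ≤ 3 ^ i := Nat.pow_le_pow_right (by norm_num) h
  simp only [sum_add_distrib, ← mul_sum] at h2
  rw [sum_ite_eq', sum_ite_eq', if_pos (mem_Ico.2 ⟨by omega, h0b⟩),
    if_pos (mem_Ico.2 ⟨le_refl _, by omega⟩)] at h2
  omega

theorem val3_c (m e : ℕ) (hm : 1 ≤ m) (he : 2 * m + 3 = 3 ^ e) :
    padicValNat 3 ((4 * m)!) + padicValNat 3 (m !) + padicValNat 3 ((m + 1)!) + 1 =
      4 * padicValNat 3 (m !) + padicValNat 3 ((2 * m + 3)!) := by
  have h3 : 3 ∣ m := by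
    have : e ≠ 0 := by
      rintro rfl
      rw [pow_zero] at he
      omega
    have h1 : 3 ∣ 3 ^ e := dvd_pow_self 3 this
    rw [← he] at h1
    omega
  set b := 4 * m + 4 with hb
  rw [vfac 3 b m (by omega), vfac 3 b (2 * m + 3) (by omega),
    vfac 3 b (4 * m) (by omega), vfac 3 b (m + 1) (by omega)]
  have h2 : ∑ i ∈ Ico 1 b, (4 * (m / 3 ^ i) + (2 * m + 3) / 3 ^ i) =
      ∑ i ∈ Ico 1 b, ((4 * m) / 3 ^ i + m / 3 ^ i + (m + 1) / 3 ^ i +
        if i = 1 then 1 else 0) := by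
    refine sum_congr rfl fun i hi => ?_
    rw [mem_Ico] at hi
    rcases Nat.lt_or_ge i 2 with h | h
    · obtain rfl : i = 1 := by omega
      rw [pow_one, if_pos rfl]
      omega
    · rw [if_neg (show i ≠ 1 by omega), add_zero]
      refine le_antisymm (divG _ _ 0 ?_) (floor_eq m e i he h)
      calc 4 * 0 + 6 ≤ 3 ^ 2 := by norm_num
        _ ≤ 3 ^ i := Nat.pow_le_pow_right (by norm_num) h
  simp only [sum_add_distrib, ← mul_sum] at h2
  rw [sum_ite_eq', if_pos (mem_Ico.2 ⟨le_refl _, by omega⟩)] at h2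
  omega

/-! ### `p = 2`, the last term -/

theorem val2 (m : ℕ) (hm : 1 ≤ m) :
    4 * padicValNat 2 (m !) + padicValNat 2 ((2 * m + 3)!) + 1 ≤
      padicValNat 2 ((4 * m)!) + padicValNat 2 (m !) + padicValNat 2 ((m + 1)!) := by
  have h1 : padicValNat 2 ((4 * m)!) = padicValNat 2 (m !) + m + 2 * m := by
    rw [show 4 * m = 2 * (2 * m) by ring, padicValNat_factorial_mul, padicValNat_factorial_mul]
  have h2 : padicValNat 2 ((2 * m + 3)!) = padicValNat 2 ((m + 1)!) + (m + 1) := by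
    rw [show 2 * m + 3 = 2 * (m + 1) + 1 by ring,
      padicValNat_factorial_mul_add _ (show 1 < 2 by norm_num), padicValNat_factorial_mul]
  have h3 := padicValNat_factorial_lt_of_ne_zero 2 (show m ≠ 0 by omega)
  omega

/-! ### Norms -/

theorem norm_le_one {p : ℕ} [hp : Fact p.Prime] {q : ℚ} (h : 0 ≤ padicValRat p q) :
    padicNorm p q ≤ 1 := by
  by_cases hq : q = 0
  · simp [hq]
  · rw [padicNorm.eq_zpow_of_nonzero hq]
    exact zpow_le_one_of_nonpos₀ (by exact_mod_cast hp.out.one_le) (by omega)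

theorem norm_lt_one {p : ℕ} [hp : Fact p.Prime] {q : ℚ} (h : 0 < padicValRat p q) :
    padicNorm p q < 1 := by
  by_cases hq : q = 0
  · simp [hq]
  · rw [padicNorm.eq_zpow_of_nonzero hq]
    exact zpow_lt_one_of_neg₀ (by exact_mod_cast hp.out.one_lt) (by omega)

theorem not_dvd_den {p : ℕ} [hp : Fact p.Prime] {q : ℚ} (h : padicNorm p q ≤ 1) :
    ¬ p ∣ q.den := by
  intro hd
  have h1 : ¬ (p : ℤ) ∣ q.num := by
    intro hn
    have h2 := Nat.dvd_gcd (Int.natCast_dvd.1 hn) hd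
    rw [q.reduced] at h2
    exact hp.out.one_lt.ne' (Nat.dvd_one.1 h2)
  rw [← padicNorm.int_eq_one_iff] at h1
  rw [← padicNorm.nat_lt_one_iff] at hd
  have h3 : (q.num : ℚ) = q * q.den := (Rat.mul_den_eq_num q).symm
  rw [h3, padicNorm.mul] at h1
  have h4 := padicNorm.nonneg (p := p) q
  have h5 := padicNorm.nonneg (p := p) (q.den : ℚ)
  nlinarith

theorem not_dvd_num {p : ℕ} [hp : Fact p.Prime] {q : ℚ} (h : padicNorm p q = 1) :
    ¬ (p : ℤ) ∣ q.num := by
  rw [← padicNorm.int_lt_one_iff]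
  have h3 : (q.num : ℚ) = q * q.den := (Rat.mul_den_eq_num q).symm
  rw [h3, padicNorm.mul, h, one_mul, not_lt]
  rw [(padicNorm.nat_eq_one_iff _).2 (not_dvd_den h.le)]

theorem term_ge (p : ℕ) [hp : Fact p.Prime] (hc : 4 ≤ padicValNat p (2 ^ 10 * 21 ^ 4)) (m k : ℕ)
    (hk : k < m) : ((m - k : ℕ) : ℤ) ≤ padicValRat p (term m k) + padicValNat p 2 := by
  rw [val_term]
  have h := val_le p k (m - k) (by omega)
  rw [show k + (m - k) = m by omega] at h
  have h1 : (4 : ℤ) * ((m - k : ℕ) : ℤ) ≤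
      ((m - k : ℕ) : ℤ) * (padicValNat p (2 ^ 10 * 21 ^ 4) : ℤ) := by
    rw [mul_comm]
    exact mul_le_mul_of_nonneg_left (by exact_mod_cast hc) (by positivity)
  generalize ((m - k : ℕ) : ℤ) * (padicValNat p (2 ^ 10 * 21 ^ 4) : ℤ) = P at *
  omega

theorem c_val (p : ℕ) (hp : p = 2 ∨ p = 3 ∨ p = 7) : 4 ≤ padicValNat p (2 ^ 10 * 21 ^ 4) := by
  rcases hp with rfl | rfl | rfl
  · have : Fact (Nat.Prime 2) := ⟨by norm_num⟩
    exact (padicValNat_dvd_iff_le (by norm_num)).1 (by norm_num)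
  · have : Fact (Nat.Prime 3) := ⟨by norm_num⟩
    exact (padicValNat_dvd_iff_le (by norm_num)).1 (by norm_num)
  · have : Fact (Nat.Prime 7) := ⟨by norm_num⟩
    exact (padicValNat_dvd_iff_le (by norm_num)).1 (by norm_num)

theorem lin_odd (k : ℕ) : padicValNat 2 (21460 * k + 1123) = 0 :=
  padicValNat.eq_zero_of_not_dvd (by omega)

theorem norm_a (p : ℕ) [hp : Fact p.Prime] (hc : 4 ≤ padicValNat p (2 ^ 10 * 21 ^ 4)) (m : ℕ)
    (h0 : 0 ≤ padicValRat p (term m m)) : padicNorm p (a (m + 1)) ≤ 1 := by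
  rw [a_eq]
  refine padicNorm.sum_le' (fun k hk => ?_) zero_le_one
  rw [mem_range] at hk
  rcases Nat.lt_or_ge k m with h | h
  · refine norm_le_one ?_
    have h1 := term_ge p hc m k h
    have h2 : padicValNat p 2 ≤ 1 := by
      have := padicValNat_le_nat_log (p := p) 2
      have h3 : Nat.log p 2 ≤ 1 := by
        calc Nat.log p 2 ≤ Nat.log 2 2 := Nat.log_anti_left (by norm_num) hp.out.two_le
          _ = 1 := by norm_num
      omega
    have h4 : (1 : ℤ) ≤ ((m - k : ℕ) : ℤ) := by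
      have : 1 ≤ m - k := by omega
      exact_mod_cast this
    omega
  · obtain rfl : k = m := by omega
    exact norm_le_one h0

/-- **Q2 at the primes which divide `2^10 21^4`.**  For `n ≥ 2` the denominator of `a_n` is prime to
`2` and to `7`; it is prime to `3` if `2n+1` is not a power of `3`; and if `2n+1` is a power of `3`
then numerator and denominator of `3 a_n` are prime to `3`. -/
theorem result (n : ℕ) (hn : 2 ≤ n) :
    ¬ 2 ∣ (a n).den ∧ ¬ 7 ∣ (a n).den ∧
    ((∀ m : ℕ, 2 * n + 1 ≠ 3 ^ m) → ¬ 3 ∣ (a n).den) ∧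
    ∀ m : ℕ, 2 * n + 1 = 3 ^ m → ¬ 3 ∣ (3 * a n).den ∧ ¬ (3 : ℤ) ∣ (3 * a n).num := by
  have : Fact (Nat.Prime 2) := ⟨by norm_num⟩
  have : Fact (Nat.Prime 3) := ⟨by norm_num⟩
  have : Fact (Nat.Prime 7) := ⟨by norm_num⟩
  obtain ⟨m, rfl⟩ : ∃ m, n = m + 1 := ⟨n - 1, by omega⟩
  have hm : 1 ≤ m := by omega
  refine ⟨not_dvd_den (norm_a 2 (c_val 2 (by simp)) m ?_),
    not_dvd_den (norm_a 7 (c_val 7 (by simp)) m ?_), fun h3 => not_dvd_den
      (norm_a 3 (c_val 3 (by simp)) m ?_), fun e he => ?_⟩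
  · rw [val_term, lin_odd, padicValNat.self (by norm_num)]
    have h := val2 m hm
    simp only [Nat.sub_self, Nat.cast_zero, zero_mul, Nat.cast_one]
    omega
  · rw [val_term, padicValNat.eq_zero_of_not_dvd (show ¬ 7 ∣ 2 by norm_num)]
    have h := val_le_zero 7 (le_refl _) m
    simp only [Nat.sub_self, Nat.cast_zero, zero_mul]
    omega
  · rw [val_term, padicValNat.eq_zero_of_not_dvd (show ¬ 3 ∣ 2 by norm_num)]
    have h : 4 * padicValNat 3 (m !) + padicValNat 3 ((2 * m + 3)!) ≤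
      padicValNat 3 ((4 * m)!) + padicValNat 3 (m !) + padicValNat 3 ((m + 1)!) := by
      by_cases hd : 3 ∣ m
      · refine val3_b m hm hd fun e => ?_
        have := h3 e
        omega
      · exact val3_a m hd
    simp only [Nat.sub_self, Nat.cast_zero, zero_mul]
    omega
  · have he' : 2 * m + 3 = 3 ^ e := by omega
    have h3m : 3 ∣ m := by
      have : e ≠ 0 := by
        rintro rfl
        rw [pow_zero] at he'
        omega
      have h1 : 3 ∣ 3 ^ e := dvd_pow_self 3 this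
      rw [← he'] at h1
      omega
    have hmain : padicValRat 3 (term m m) = -1 := by
      rw [val_term, padicValNat.eq_zero_of_not_dvd (show ¬ 3 ∣ 2 by norm_num),
        padicValNat.eq_zero_of_not_dvd (show ¬ 3 ∣ 21460 * m + 1123 by omega)]
      have h := val3_c m e hm he'
      simp only [Nat.sub_self, Nat.cast_zero, zero_mul]
      omega
    have hne : term m m ≠ 0 := by
      intro h0
      rw [h0, padicValRat.zero] at hmain
      omega
    have hn1 : padicNorm 3 (term m m) = 3 := by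
      rw [padicNorm.eq_zpow_of_nonzero hne, hmain]
      norm_num
    have hn2 : padicNorm 3 (∑ k ∈ range m, term m k) < 1 := by
      refine padicNorm.sum_lt' (fun k hk => ?_) one_pos
      rw [mem_range] at hk
      refine norm_lt_one ?_
      have h1 := term_ge 3 (c_val 3 (by simp)) m k hk
      rw [padicValNat.eq_zero_of_not_dvd (show ¬ 3 ∣ 2 by norm_num)] at h1
      have h4 : (1 : ℤ) ≤ ((m - k : ℕ) : ℤ) := by
        have : 1 ≤ m - k := by omega
        exact_mod_cast this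
      push_cast at h1
      linarith
    have hn3 : padicNorm 3 (a (m + 1)) = 3 := by
      rw [a_eq, sum_range_succ, padicNorm.add_eq_max_of_ne (by rw [hn1]; linarith), hn1]
      exact max_eq_right (by linarith)
    have hn4 : padicNorm 3 (3 * a (m + 1)) = 1 := by
      rw [padicNorm.mul, hn3]
      have : padicNorm 3 (3 : ℚ) = 3⁻¹ := by
        have := padicNorm.padicNorm_p_of_prime (p := 3)
        exact_mod_cast this
      rw [this]
      norm_num
    exact ⟨not_dvd_den hn4.le, not_dvd_num hn4⟩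

end

end Pool.Agent.Results.MP_7e705e_nt.LocalIntegrality
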